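import Pool.Agent.Helper69.SIM.Growth

/-!
# Similarity constants of polynomially bounded matrices: dependence on `ε`

`S_ε(n)^t ≤ S_((1+ε)^t-1)(n)` for `0 < t ≤ 1`, i.e. `log S_ε(n) / log (1 + ε)` is a nonincreasing
function of `ε`. Consequences: `S_ε(n) = 1 + L(n) ε + o(ε)` for `ε → 0`, `S_ε(n) ≤ (1 + ε)^L(n)`,
and `S_ε(n) - 1 ≥ c ε (log n / log log n)^(1/2)` for all `0 < ε ≤ 1` and `n ≥ 2`.
-/

namespace Pool.Agent.Results.MP_a5cf26_an.Interpolation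

open Polynomial Filter Topology

/-- The Hilbert space `ℓ₂ⁿ`. -/
abbrev H (n : ℕ) := EuclideanSpace ℂ (Fin n)

/-- The bounded operators on `ℓ₂ⁿ`. -/
abbrev B (n : ℕ) := H n →L[ℂ] H n

/-- The operator `T` on `ℓ₂ⁿ` is polynomially `C`-bounded: `‖P(T)‖ ≤ C sup {|P(z)| : |z| ≤ 1}` for
every complex polynomial `P`. -/
def PolynomiallyBounded {n : ℕ} (C : ℝ) (T : B n) : Prop :=
  ∀ P : ℂ[X], ‖aeval T P‖ ≤ C * sSup ((fun z : ℂ => ‖P.eval z‖) '' {z : ℂ | ‖z‖ ≤ 1})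

/-- The invertible operators on `ℓ₂ⁿ`. -/
abbrev Inv (n : ℕ) := H n ≃L[ℂ] H n

/-- The operator `ξ⁻¹ T ξ`. -/
noncomputable def conj {n : ℕ} (ξ : Inv n) (T : B n) : B n := (ξ.symm : B n) ∘L T ∘L (ξ : B n)

/-- The number `‖ξ‖ ‖ξ⁻¹‖`. -/
noncomputable def cond {n : ℕ} (ξ : Inv n) : ℝ := ‖(ξ : B n)‖ * ‖(ξ.symm : B n)‖

/-- The similarity constant: the infimum of `‖ξ‖ ‖ξ⁻¹‖` over the invertible `ξ` for which
`ξ⁻¹ T ξ` is a contraction. -/
noncomputable def Sim {n : ℕ} (T : B n) : ENNReal :=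
  ⨅ ξ : Inv n, ⨅ _ : ‖conj ξ T‖ ≤ 1, ENNReal.ofReal (cond ξ)

/-- `S_ε(n)`: the supremum of the similarity constants of the polynomially `(1 + ε)`-bounded
operators on `ℓ₂ⁿ`. -/
noncomputable def S (ε : ℝ) (n : ℕ) : ENNReal :=
  ⨆ T : B n, ⨆ _ : PolynomiallyBounded (1 + ε) T, Sim T

theorem bddAbove_image (P : ℂ[X]) :
    BddAbove ((fun z : ℂ => ‖P.eval z‖) '' {z : ℂ | ‖z‖ ≤ 1}) := by
  have hc : IsCompact {z : ℂ | ‖z‖ ≤ 1} := by
    have : {z : ℂ | ‖z‖ ≤ 1} = Metric.closedBall 0 1 := by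
      ext z; simp
    rw [this]
    exact isCompact_closedBall 0 1
  exact (hc.image (by fun_prop)).bddAbove

theorem polynomiallyBounded_iff {n : ℕ} {C : ℝ} (hC : 1 ≤ C) {T : B n} :
    PolynomiallyBounded C T ↔ Pool.Agent.Helper69.SIM.PBdd C T := by
  constructor
  · intro h q s hq
    refine (h q).trans (mul_le_mul_of_nonneg_left ?_ (by linarith))
    refine csSup_le ⟨_, 0, by simp, rfl⟩ ?_
    rintro _ ⟨z, hz, rfl⟩
    exact hq z hz
  · intro h P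
    exact h P _ fun z hz => le_csSup (bddAbove_image P) ⟨z, hz, rfl⟩

/-- The function `log (n + 1) / log (2 + log (n + 1))`. -/
noncomputable def rate (n : ℕ) : ℝ := Real.log (n + 1) / Real.log (2 + Real.log (n + 1))

theorem sim_le {n : ℕ} (hn : 1 ≤ n) {C : ℝ} (hC : 1 ≤ C) {T : B n}
    (hT : PolynomiallyBounded C T) : Sim T ≤ ENNReal.ofReal (C ^ (n - 1)) := by
  obtain ⟨ξ, h2, h3⟩ := Pool.Agent.Helper69.SIM.exists_similar hC
    ((polynomiallyBounded_iff hC).1 hT) (m := n - 1) (by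
      rw [finrank_euclideanSpace_fin]; omega)
  exact iInf₂_le_of_le ξ h2 (ENNReal.ofReal_le_ofReal h3)

theorem one_le_cond {n : ℕ} (hn : 1 ≤ n) (ξ : Inv n) : 1 ≤ cond ξ := by
  have : Nonempty (Fin n) := ⟨⟨0, by omega⟩⟩
  have : Nontrivial (H n) := inferInstance
  obtain ⟨x, hx⟩ := exists_norm_eq (H n) (zero_le_one (α := ℝ))
  have h1 := (ξ : B n).le_opNorm (ξ.symm x)
  have h2 := (ξ.symm : B n).le_opNorm x
  have h3 : (ξ : B n) (ξ.symm x) = x := ξ.apply_symm_apply x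
  rw [h3, hx] at h1
  rw [hx, mul_one] at h2
  calc (1 : ℝ) ≤ ‖(ξ : B n)‖ * ‖ξ.symm x‖ := h1
    _ ≤ ‖(ξ : B n)‖ * ‖(ξ.symm : B n)‖ := mul_le_mul_of_nonneg_left h2 (norm_nonneg _)

theorem one_le_sim {n : ℕ} (hn : 1 ≤ n) (T : B n) : 1 ≤ Sim T := by
  refine le_iInf₂ fun ξ _ => ?_
  rw [← ENNReal.ofReal_one]
  exact ENNReal.ofReal_le_ofReal (one_le_cond hn ξ)

theorem sim_rpow_le {n : ℕ} (hn : 1 ≤ n) {ε : ℝ} (hε : 0 < ε) {t : ℝ} (ht0 : 0 < t)
    (ht1 : t ≤ 1) {T : B n} (hT : PolynomiallyBounded (1 + ε) T) :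
    (Sim T) ^ t ≤ S ((1 + ε) ^ t - 1) n := by
  have hC : (1 : ℝ) ≤ 1 + ε := by linarith
  have hCt : (1 : ℝ) ≤ (1 + ε) ^ t := Real.one_le_rpow hC ht0.le
  set σ := Sim T with hσ
  have hσtop : σ ≠ ⊤ := ne_top_of_le_ne_top ENNReal.ofReal_ne_top (sim_le hn hC hT)
  have hσ1 : 1 ≤ σ := one_le_sim hn T
  have hσ0 : σ ≠ 0 := (zero_lt_one.trans_le hσ1).ne'
  set S' := S ((1 + ε) ^ t - 1) n with hS'
  have hu : 0 ≤ 1 - t := by linarith
  -- the approximate inequality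
  have key : ∀ δ : ENNReal, 0 < δ → σ ≤ (σ + δ) ^ (1 - t) * S' := by
    intro δ hδ
    have h1 : (⨅ ξ : Inv n, ⨅ _ : ‖conj ξ T‖ ≤ 1, ENNReal.ofReal (cond ξ)) < σ + δ :=
      ENNReal.lt_add_right hσtop hδ.ne'
    obtain ⟨ξ, hξ⟩ := iInf_lt_iff.1 h1
    obtain ⟨hξ1, hξ2⟩ := iInf_lt_iff.1 hξ
    obtain ⟨T', hT', hint⟩ := Pool.Agent.Helper69.SIM.interp hn hC
      ((polynomiallyBounded_iff hC).1 hT) ξ hξ1 ht0.le ht1
    have hT'' : PolynomiallyBounded (1 + ((1 + ε) ^ t - 1)) T' := by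
      rw [add_sub_cancel]
      exact (polynomiallyBounded_iff hCt).2 hT'
    have h2 : σ ≤ (σ + δ) ^ (1 - t) * Sim T' := by
      have h3 : ∀ ζ' : Inv n, ‖conj ζ' T'‖ ≤ 1 →
          σ ≤ (σ + δ) ^ (1 - t) * ENNReal.ofReal (cond ζ') := by
        intro ζ' hζ'
        obtain ⟨ζ, hζ1, hζ2⟩ := hint ζ' hζ'
        calc σ ≤ ENNReal.ofReal (cond ζ) := iInf₂_le_of_le ζ hζ1 le_rfl
          _ ≤ ENNReal.ofReal ((cond ξ) ^ (1 - t) * cond ζ') := ENNReal.ofReal_le_ofReal hζ2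
          _ = ENNReal.ofReal (cond ξ) ^ (1 - t) * ENNReal.ofReal (cond ζ') := by
            have hc0 : 0 ≤ cond ξ := by unfold cond; positivity
            rw [ENNReal.ofReal_mul (Real.rpow_nonneg hc0 _), ENNReal.ofReal_rpow_of_nonneg hc0 hu]
          _ ≤ (σ + δ) ^ (1 - t) * ENNReal.ofReal (cond ζ') := by
            gcongr
      have h4 : (σ + δ) ^ (1 - t) ≠ 0 := by
        have : σ + δ ≠ 0 := by
          intro h
          exact hσ0 (add_eq_zero.1 h).1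
        intro h
        rcases ENNReal.rpow_eq_zero_iff.1 h with h | h
        · exact this h.1
        · linarith [h.2]
      by_cases hδt : (σ + δ) ^ (1 - t) = ⊤
      · rw [hδt]
        have h5 : Sim T' ≠ 0 := (zero_lt_one.trans_le (one_le_sim hn T')).ne'
        rw [ENNReal.top_mul h5]
        exact le_top
      · rw [mul_comm]
        refine (ENNReal.div_le_iff h4 hδt).1 ?_
        refine le_iInf₂ fun ζ' hζ' => ?_
        rw [ENNReal.div_le_iff h4 hδt, mul_comm]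
        exact h3 ζ' hζ'
    refine h2.trans ?_
    gcongr
    exact le_iSup₂_of_le T' hT'' le_rfl
  -- the limit
  by_cases hS0 : S' = ⊤
  · rw [hS0]; exact le_top
  have hlim : σ ≤ σ ^ (1 - t) * S' := by
    have hd : Tendsto (fun k : ℕ => (σ + ((k : ENNReal) + 1)⁻¹) ^ (1 - t) * S') atTop
        (𝓝 ((σ + 0) ^ (1 - t) * S')) := by
      have h1 : Tendsto (fun k : ℕ => ((k : ENNReal) + 1)⁻¹) atTop (𝓝 0) := by
        have h2 := ENNReal.tendsto_inv_nat_nhds_zero.comp (tendsto_add_atTop_nat 1)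
        refine h2.congr fun k => ?_
        simp
      have h3 : Tendsto (fun k : ℕ => σ + ((k : ENNReal) + 1)⁻¹) atTop (𝓝 (σ + 0)) :=
        tendsto_const_nhds.add h1
      exact ENNReal.Tendsto.mul_const (h3.ennrpow_const (1 - t)) (Or.inr hS0)
    have h2 := ge_of_tendsto' hd fun k => key _ (by
      rw [ENNReal.inv_pos]
      exact ENNReal.add_ne_top.2 ⟨ENNReal.natCast_ne_top k, ENNReal.one_ne_top⟩)
    rwa [add_zero] at h2
  have h3 : σ ^ t = σ / σ ^ (1 - t) := by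
    have h4 := ENNReal.rpow_sub (1 : ℝ) (1 - t) hσ0 hσtop
    rwa [sub_sub_cancel, ENNReal.rpow_one] at h4
  rw [h3]
  exact ENNReal.div_le_of_le_mul (by rwa [mul_comm])

theorem S_rpow_le {n : ℕ} (hn : 1 ≤ n) {ε : ℝ} (hε : 0 < ε) {t : ℝ} (ht0 : 0 < t)
    (ht1 : t ≤ 1) : (S ε n) ^ t ≤ S ((1 + ε) ^ t - 1) n := by
  rw [← ENNReal.le_rpow_inv_iff ht0]
  refine iSup₂_le fun T hT => ?_
  rw [ENNReal.le_rpow_inv_iff ht0]
  exact sim_rpow_le hn hε ht0 ht1 hT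

theorem S_le {n : ℕ} (hn : 1 ≤ n) {ε : ℝ} (hε : 0 < ε) :
    S ε n ≤ ENNReal.ofReal ((1 + ε) ^ (n - 1)) :=
  iSup₂_le fun _ hT => sim_le hn (by linarith) hT

theorem S_ne_top {n : ℕ} (hn : 1 ≤ n) {ε : ℝ} (hε : 0 < ε) : S ε n ≠ ⊤ :=
  ne_top_of_le_ne_top ENNReal.ofReal_ne_top (S_le hn hε)

theorem one_le_S {n : ℕ} (hn : 1 ≤ n) {ε : ℝ} (hε : 0 < ε) : 1 ≤ S ε n := by
  have hC : (1 : ℝ) ≤ 1 + ε := by linarith
  have h1 : PolynomiallyBounded (1 + ε) (0 : B n) :=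
    (polynomiallyBounded_iff hC).2
      ((Pool.Agent.Helper69.SIM.vn (0 : B n) (by rw [norm_zero]; exact zero_le_one)).mono hC)
  exact (one_le_sim hn _).trans (le_iSup₂_of_le 0 h1 le_rfl)

theorem one_add_le_S {n : ℕ} (hn : 2 ≤ n) {ε : ℝ} (hε : 0 < ε) :
    ENNReal.ofReal (1 + ε) ≤ S ε n := by
  have hC : (1 : ℝ) ≤ 1 + ε := by linarith
  obtain ⟨T, hT, hn⟩ := Pool.Agent.Helper69.SIM.exists_lower hn hC
  refine le_iSup₂_of_le T ((polynomiallyBounded_iff hC).2 hT) ?_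
  refine le_iInf₂ fun ξ hξ => ENNReal.ofReal_le_ofReal (hn.trans ?_)
  exact Pool.Agent.Helper69.SIM.norm_le_cond T ξ hξ

theorem rate_nonneg {n : ℕ} (hn : 1 ≤ n) : 0 ≤ rate n := by
  have hn1 : (1 : ℝ) ≤ n := by exact_mod_cast hn
  unfold rate
  have h3 : 0 ≤ Real.log (n + 1) := Real.log_nonneg (by linarith)
  exact div_nonneg h3 (Real.log_nonneg (by linarith))

/-- the linear lower bound for `S_ε(n) - 1` -/
theorem lower_linear : ∃ c : ℝ, 0 < c ∧ ∀ ε : ℝ, 0 < ε → ε ≤ 1 → ∀ n : ℕ, 2 ≤ n →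
    ENNReal.ofReal (1 + c * ε * √(rate n)) ≤ S ε n := by
  obtain ⟨c₀, hc₀, h⟩ := PB.final_aux
  -- the quadratic lower bound
  have hquad : ∀ ε : ℝ, 0 < ε → ε ≤ 1 → ∀ n : ℕ, 2 ≤ n →
      ENNReal.ofReal (c₀ * ε ^ 2 * rate n) ≤ S ε n := by
    intro ε hε hε1 n hn
    obtain ⟨T, h1, h2⟩ := h ε hε hε1 n (by omega)
    refine le_iSup₂_of_le T ((polynomiallyBounded_iff (by linarith)).2 h1) ?_
    exact le_iInf₂ fun ξ hξ => ENNReal.ofReal_le_ofReal (h2 ξ hξ)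
  set A : ℝ := √(Real.exp 1 / c₀) with hA
  have hA0 : 0 < A := Real.sqrt_pos.2 (div_pos (Real.exp_pos 1) hc₀)
  have hA2 : c₀ * A ^ 2 = Real.exp 1 := by
    rw [hA, Real.sq_sqrt (div_pos (Real.exp_pos 1) hc₀).le]
    field_simp
  refine ⟨1 / (2 * A), by positivity, fun ε hε hε1 n hn => ?_⟩
  have hr := rate_nonneg (n := n) (by omega)
  set r := rate n with hrdef
  have hsr : 0 ≤ √r := Real.sqrt_nonneg r
  have hsq : √r ^ 2 = r := Real.sq_sqrt hr
  rcases le_total (√r) A with hcase | hcase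
  · -- small `n`
    refine le_trans (ENNReal.ofReal_le_ofReal ?_) (one_add_le_S hn hε)
    have h1 : 1 / (2 * A) * ε * √r ≤ ε := by
      calc 1 / (2 * A) * ε * √r ≤ 1 / (2 * A) * ε * A := by gcongr
        _ = ε / 2 := by field_simp
        _ ≤ ε := by linarith
    linarith
  · have hr0 : 0 < √r := hA0.trans_le hcase
    rcases le_total (ε * √r) A with hc | hc
    · -- interpolation from `ε₀ = A / √r`
      set ε₀ : ℝ := A / √r with hε₀
      have hε₀0 : 0 < ε₀ := by positivity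
      have hε₀1 : ε₀ ≤ 1 := (div_le_one hr0).2 hcase
      have hεε : ε ≤ ε₀ := (le_div_iff₀ hr0).2 hc
      have l1 : 0 < Real.log (1 + ε) := Real.log_pos (by linarith)
      have l2 : 0 < Real.log (1 + ε₀) := Real.log_pos (by linarith)
      have l12 : Real.log (1 + ε) ≤ Real.log (1 + ε₀) :=
        Real.log_le_log (by linarith) (by linarith)
      set t : ℝ := Real.log (1 + ε) / Real.log (1 + ε₀) with ht
      have ht0 : 0 < t := by positivity
      have ht1 : t ≤ 1 := (div_le_one l2).2 l12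
      have h4 := S_rpow_le (n := n) (by omega) hε₀0 ht0 ht1
      have e1 : (1 + ε₀) ^ t - 1 = ε := by
        rw [Real.rpow_def_of_pos (by linarith), ht, mul_div_cancel₀ _ l2.ne',
          Real.exp_log (by linarith)]
        ring
      rw [e1] at h4
      refine le_trans ?_ h4
      have h5 : ENNReal.ofReal (Real.exp 1) ≤ S ε₀ n := by
        have h6 := hquad ε₀ hε₀0 hε₀1 n hn
        have e2 : c₀ * ε₀ ^ 2 * r = Real.exp 1 := by
          rw [hε₀, div_pow, hsq, ← hA2]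
          have : r ≠ 0 := by
            intro h0
            rw [h0, Real.sqrt_zero] at hr0
            exact lt_irrefl _ hr0
          field_simp
        rwa [← hrdef, e2] at h6
      have h7 : ENNReal.ofReal (Real.exp t) ≤ (S ε₀ n) ^ t := by
        have e3 : Real.exp t = (Real.exp 1) ^ t := by
          rw [← Real.exp_mul, one_mul]
        rw [e3, ← ENNReal.ofReal_rpow_of_nonneg (Real.exp_pos 1).le ht0.le]
        exact ENNReal.rpow_le_rpow h5 ht0.le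
      refine le_trans (ENNReal.ofReal_le_ofReal ?_) h7
      refine le_trans ?_ (Real.add_one_le_exp t)
      -- `t ≥ ε / (2 ε₀)`
      have h8 : ε / 2 ≤ Real.log (1 + ε) := by
        have h9 := Real.one_sub_inv_le_log_of_pos (show 0 < 1 + ε by linarith)
        refine le_trans ?_ h9
        rw [le_sub_iff_add_le, ← le_sub_iff_add_le', inv_le_comm₀ (by linarith) (by linarith)]
        rw [inv_le_iff_one_le_mul₀ (by linarith)]
        nlinarith
      have h10 : Real.log (1 + ε₀) ≤ ε₀ := by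
        have := Real.log_le_sub_one_of_pos (show 0 < 1 + ε₀ by linarith)
        linarith
      have h11 : 1 / (2 * A) * ε * √r ≤ t := by
        have e4 : 1 / (2 * A) * ε * √r = (ε / 2) / ε₀ := by
          rw [hε₀]
          field_simp
        rw [e4, ht]
        exact div_le_div₀ l1.le h8 l2 h10
      linarith
    · -- the quadratic bound
      refine le_trans (ENNReal.ofReal_le_ofReal ?_) (hquad ε hε hε1 n hn)
      set v : ℝ := ε * √r / A with hv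
      have hv1 : 1 ≤ v := (one_le_div hA0).2 hc
      have e5 : c₀ * ε ^ 2 * r = Real.exp 1 * v ^ 2 := by
        rw [hv, div_pow, mul_pow, hsq, ← hA2]
        field_simp
      have e6 : 1 / (2 * A) * ε * √r = v / 2 := by
        rw [hv]
        field_simp
      rw [← hrdef, e5, e6]
      have h12 : (2 : ℝ) ≤ Real.exp 1 := by
        have := Real.add_one_le_exp (1 : ℝ)
        linarith
      nlinarith [mul_le_mul_of_nonneg_right h12 (sq_nonneg v)]

/-- (1) `S_ε(n)^t ≤ S_((1+ε)^t-1)(n)` for `n ≥ 1`, `ε > 0` and `0 < t ≤ 1`.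
(2) There is an absolute constant `c > 0` with
`S_ε(n) ≥ 1 + c ε (log (n + 1) / log (2 + log (n + 1)))^(1/2)` for all `0 < ε ≤ 1` and `n ≥ 2`.
(3) For every `n ≥ 2` there is a number `L(n)` with `1 ≤ L(n) ≤ n - 1`, with
`(S_ε(n) - 1) / ε → L(n)` for `ε → 0+` and `S_ε(n) ≤ (1 + ε)^L(n)` for all `ε > 0`; moreover
`L(n) ≥ c (log (n + 1) / log (2 + log (n + 1)))^(1/2)`. -/
theorem result :
    (∀ n : ℕ, 1 ≤ n → ∀ ε : ℝ, 0 < ε → ∀ t : ℝ, 0 < t → t ≤ 1 →
      (S ε n) ^ t ≤ S ((1 + ε) ^ t - 1) n) ∧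
    ∃ c : ℝ, 0 < c ∧
      (∀ ε : ℝ, 0 < ε → ε ≤ 1 → ∀ n : ℕ, 2 ≤ n →
        ENNReal.ofReal (1 + c * ε * √(rate n)) ≤ S ε n) ∧
      ∃ L : ℕ → ℝ, ∀ n : ℕ, 2 ≤ n →
        1 ≤ L n ∧ L n ≤ n - 1 ∧ c * √(rate n) ≤ L n ∧
        Tendsto (fun ε : ℝ => ((S ε n).toReal - 1) / ε) (𝓝[>] 0) (𝓝 (L n)) ∧
        ∀ ε : ℝ, 0 < ε → S ε n ≤ ENNReal.ofReal ((1 + ε) ^ L n) := by
  refine ⟨fun n hn ε hε t ht0 ht1 => S_rpow_le hn hε ht0 ht1, ?_⟩
  obtain ⟨c, hc, hlin⟩ := lower_linear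
  refine ⟨c, hc, hlin, ?_⟩
  have hex : ∀ n : ℕ, 2 ≤ n → ∃ L : ℝ, 1 ≤ L ∧ L ≤ n - 1 ∧
      c * √(rate n) ≤ L ∧
      Tendsto (fun ε : ℝ => ((S ε n).toReal - 1) / ε) (𝓝[>] 0) (𝓝 L) ∧
      ∀ ε : ℝ, 0 < ε → S ε n ≤ ENNReal.ofReal ((1 + ε) ^ L) := by
    intro n hn
    have hn1 : 1 ≤ n := by omega
    have hs1 : ∀ ε : ℝ, 0 < ε → 1 ≤ (S ε n).toReal := by
      intro ε hε
      have h3 := ENNReal.toReal_mono (S_ne_top hn1 hε) (one_le_S hn1 hε)
      simpa using h3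
    obtain ⟨L, hL1, hL2, hL3⟩ := Pool.Agent.Helper69.SIM.exists_limit
      (fun ε => (S ε n).toReal) hs1
      (fun ε hε t ht0 ht1 => by
        have h3 : 0 < (1 + ε) ^ t - 1 := by
          have := Real.one_lt_rpow (show 1 < 1 + ε by linarith) ht0
          linarith
        have h4 := ENNReal.toReal_mono (S_ne_top hn1 h3) (S_rpow_le hn1 hε ht0 ht1)
        rwa [← ENNReal.toReal_rpow] at h4)
      ((n : ℝ) - 1) (fun ε hε => by
        have h3 := ENNReal.toReal_mono ENNReal.ofReal_ne_top (S_le hn1 hε)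
        rw [ENNReal.toReal_ofReal (by positivity)] at h3
        refine h3.trans (le_of_eq ?_)
        rw [← Real.rpow_natCast, Nat.cast_sub hn1, Nat.cast_one])
    refine ⟨L, ?_, hL1, ?_, hL3, fun ε hε => ?_⟩
    · refine ge_of_tendsto hL3 ?_
      filter_upwards [self_mem_nhdsWithin] with ε hε
      have hε' : (0 : ℝ) < ε := hε
      have h3 := ENNReal.toReal_mono (S_ne_top hn1 hε') (one_add_le_S hn hε')
      rw [ENNReal.toReal_ofReal (by positivity)] at h3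
      rw [le_div_iff₀ hε']
      linarith
    · refine ge_of_tendsto hL3 ?_
      filter_upwards [Ioc_mem_nhdsGT (zero_lt_one (α := ℝ))] with ε hε
      have h3 := ENNReal.toReal_mono (S_ne_top hn1 hε.1) (hlin ε hε.1 hε.2 n hn)
      have h7 := hε.1
      rw [ENNReal.toReal_ofReal (by positivity)] at h3
      rw [le_div_iff₀ hε.1]
      linarith
    · rw [← ENNReal.ofReal_toReal (S_ne_top hn1 hε)]
      exact ENNReal.ofReal_le_ofReal (hL2 ε hε)
  choose! L hL using hex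
  exact ⟨L, hL⟩

end Pool.Agent.Results.MP_a5cf26_an.Interpolation
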