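import Pool.Agent.Helper89.PB.Final

/-!
# Similarity constants of polynomially bounded matrices: the order is `log n` up to `log log n`

For all `0 < ε ≤ 1` and `n ≥ 1` there is a polynomially `(1 + ε)`-bounded complex `n × n` matrix
whose similarity constant is at least `c ε² log (n + 1) / log (2 + log (n + 1))`.
-/

namespace Pool.Agent.Results.MP_a5cf26_an.LogOverLogLog

open Polynomial

/-- The Hilbert space `ℓ₂ⁿ`. -/
abbrev H (n : ℕ) := EuclideanSpace ℂ (Fin n)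

/-- The bounded operators on `ℓ₂ⁿ`. -/
abbrev B (n : ℕ) := H n →L[ℂ] H n

/-- The operator `T` on `ℓ₂ⁿ` is polynomially `C`-bounded: `‖P(T)‖ ≤ C sup {|P(z)| : |z| ≤ 1}` for
every complex polynomial `P`. -/
def PolynomiallyBounded {n : ℕ} (C : ℝ) (T : B n) : Prop :=
  ∀ P : ℂ[X], ‖aeval T P‖ ≤ C * sSup ((fun z : ℂ => ‖P.eval z‖) '' {z : ℂ | ‖z‖ ≤ 1})

/-- The invertible operators on `ℓ₂ⁿ`. -/
abbrev Inv (n : ℕ) := H n ≃L[ℂ] H n

/-- The operator `ξ⁻¹ T ξ`. -/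
noncomputable def conj {n : ℕ} (ξ : Inv n) (T : B n) : B n := (ξ.symm : B n) ∘L T ∘L (ξ : B n)

/-- The number `‖ξ‖ ‖ξ⁻¹‖`. -/
noncomputable def cond {n : ℕ} (ξ : Inv n) : ℝ := ‖(ξ : B n)‖ * ‖(ξ.symm : B n)‖

/-- The similarity constant: the infimum of `‖ξ‖ ‖ξ⁻¹‖` over the invertible `ξ` for which
`ξ⁻¹ T ξ` is a contraction. -/
noncomputable def Sim {n : ℕ} (T : B n) : ENNReal :=
  ⨅ ξ : Inv n, ⨅ _ : ‖conj ξ T‖ ≤ 1, ENNReal.ofReal (cond ξ)

/-- `S_ε(n)`: the supremum of the similarity constants of the polynomially `(1 + ε)`-bounded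
operators on `ℓ₂ⁿ`. -/
noncomputable def S (ε : ℝ) (n : ℕ) : ENNReal :=
  ⨆ T : B n, ⨆ _ : PolynomiallyBounded (1 + ε) T, Sim T

/-- The function `log (n + 1) / log (2 + log (n + 1))`. -/
noncomputable def rate (n : ℕ) : ℝ := Real.log (n + 1) / Real.log (2 + Real.log (n + 1))

theorem polynomiallyBounded_of {n : ℕ} {C : ℝ} {T : B n}
    (h : ∀ (q : ℂ[X]) (s : ℝ), (∀ z : ℂ, ‖z‖ ≤ 1 → ‖q.eval z‖ ≤ s) → ‖aeval T q‖ ≤ C * s) :
    PolynomiallyBounded C T := by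
  intro P
  apply h
  intro z hz
  have hc : IsCompact {z : ℂ | ‖z‖ ≤ 1} := by
    have : {z : ℂ | ‖z‖ ≤ 1} = Metric.closedBall 0 1 := by
      ext z; simp
    rw [this]
    exact isCompact_closedBall 0 1
  have hb : BddAbove ((fun z : ℂ => ‖P.eval z‖) '' {z : ℂ | ‖z‖ ≤ 1}) :=
    (hc.image (by fun_prop)).bddAbove
  exact le_csSup hb ⟨z, hz, rfl⟩

/-- There is an absolute constant `c > 0` such that for all `0 < ε ≤ 1` and `n ≥ 1` some
polynomially `(1 + ε)`-bounded operator `T` on `ℓ₂ⁿ` has similarity constant at least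
`c ε² log (n + 1) / log (2 + log (n + 1))`; in particular `S_ε(n)` is at least this number. -/
theorem result : ∃ c : ℝ, 0 < c ∧ ∀ ε : ℝ, 0 < ε → ε ≤ 1 → ∀ n : ℕ, 1 ≤ n →
    (∃ T : B n, PolynomiallyBounded (1 + ε) T ∧
      ENNReal.ofReal (c * ε ^ 2 * rate n) ≤ Sim T) ∧
    ENNReal.ofReal (c * ε ^ 2 * rate n) ≤ S ε n := by
  obtain ⟨c, hc, h⟩ := PB.final_aux
  refine ⟨c, hc, fun ε hε hε1 n hn => ?_⟩
  obtain ⟨T, h1, h2⟩ := h ε hε hε1 n hn
  have hT : PolynomiallyBounded (1 + ε) T := polynomiallyBounded_of h1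
  have hS : ENNReal.ofReal (c * ε ^ 2 * rate n) ≤ Sim T :=
    le_iInf fun ξ => le_iInf fun hξ => ENNReal.ofReal_le_ofReal (h2 ξ hξ)
  exact ⟨⟨T, hT, hS⟩, hS.trans (le_iSup₂_of_le T hT le_rfl)⟩

end Pool.Agent.Results.MP_a5cf26_an.LogOverLogLog
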