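import Pool.Agent.Helper69.SIM.Lower

/-!
# Similarity constants of polynomially bounded `n × n` matrices: the bound `C ^ (n - 1)`

Every polynomially `C`-bounded complex `n × n` matrix is similar to a contraction with constant at
most `C ^ (n - 1)`. Therefore `1 + ε ≤ S_ε(n) ≤ (1 + ε) ^ (n - 1)` for `n ≥ 2`, and
`S_ε(2) = 1 + ε`.
-/

namespace Pool.Agent.Results.MP_a5cf26_an.SmallEpsUpper

open Polynomial

/-- The Hilbert space `ℓ₂ⁿ`. -/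
abbrev H (n : ℕ) := EuclideanSpace ℂ (Fin n)

/-- The bounded operators on `ℓ₂ⁿ`. -/
abbrev B (n : ℕ) := H n →L[ℂ] H n

/-- The operator `T` on `ℓ₂ⁿ` is polynomially `C`-bounded: `‖P(T)‖ ≤ C sup {|P(z)| : |z| ≤ 1}` for
every complex polynomial `P`. -/
def PolynomiallyBounded {n : ℕ} (C : ℝ) (T : B n) : Prop :=
  ∀ P : ℂ[X], ‖aeval T P‖ ≤ C * sSup ((fun z : ℂ => ‖P.eval z‖) '' {z : ℂ | ‖z‖ ≤ 1})

/-- The invertible operators on `ℓ₂ⁿ`. -/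
abbrev Inv (n : ℕ) := H n ≃L[ℂ] H n

/-- The operator `ξ⁻¹ T ξ`. -/
noncomputable def conj {n : ℕ} (ξ : Inv n) (T : B n) : B n := (ξ.symm : B n) ∘L T ∘L (ξ : B n)

/-- The number `‖ξ‖ ‖ξ⁻¹‖`. -/
noncomputable def cond {n : ℕ} (ξ : Inv n) : ℝ := ‖(ξ : B n)‖ * ‖(ξ.symm : B n)‖

/-- The similarity constant: the infimum of `‖ξ‖ ‖ξ⁻¹‖` over the invertible `ξ` for which
`ξ⁻¹ T ξ` is a contraction. -/
noncomputable def Sim {n : ℕ} (T : B n) : ENNReal :=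
  ⨅ ξ : Inv n, ⨅ _ : ‖conj ξ T‖ ≤ 1, ENNReal.ofReal (cond ξ)

/-- `S_ε(n)`: the supremum of the similarity constants of the polynomially `(1 + ε)`-bounded
operators on `ℓ₂ⁿ`. -/
noncomputable def S (ε : ℝ) (n : ℕ) : ENNReal :=
  ⨆ T : B n, ⨆ _ : PolynomiallyBounded (1 + ε) T, Sim T

theorem bddAbove_image (P : ℂ[X]) :
    BddAbove ((fun z : ℂ => ‖P.eval z‖) '' {z : ℂ | ‖z‖ ≤ 1}) := by
  have hc : IsCompact {z : ℂ | ‖z‖ ≤ 1} := by
    have : {z : ℂ | ‖z‖ ≤ 1} = Metric.closedBall 0 1 := by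
      ext z; simp
    rw [this]
    exact isCompact_closedBall 0 1
  exact (hc.image (by fun_prop)).bddAbove

theorem polynomiallyBounded_iff {n : ℕ} {C : ℝ} (hC : 1 ≤ C) {T : B n} :
    PolynomiallyBounded C T ↔ Pool.Agent.Helper69.SIM.PBdd C T := by
  constructor
  · intro h q s hq
    refine (h q).trans (mul_le_mul_of_nonneg_left ?_ (by linarith))
    refine csSup_le ⟨_, 0, by simp, rfl⟩ ?_
    rintro _ ⟨z, hz, rfl⟩
    exact hq z hz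
  · intro h P
    exact h P _ fun z hz => le_csSup (bddAbove_image P) ⟨z, hz, rfl⟩

/-- (1) Every polynomially `C`-bounded operator on `ℓ₂ⁿ`, `n ≥ 1`, has similarity constant at most
`C ^ (n - 1)`. (2) `1 + ε ≤ S_ε(n) ≤ (1 + ε) ^ (n - 1)` for all `ε > 0` and `n ≥ 2`.
(3) `S_ε(2) = 1 + ε` for all `ε > 0`. -/
theorem result :
    (∀ n : ℕ, 1 ≤ n → ∀ C : ℝ, 1 ≤ C → ∀ T : B n, PolynomiallyBounded C T →
      Sim T ≤ ENNReal.ofReal (C ^ (n - 1))) ∧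
    (∀ ε : ℝ, 0 < ε → ∀ n : ℕ, 2 ≤ n →
      ENNReal.ofReal (1 + ε) ≤ S ε n ∧ S ε n ≤ ENNReal.ofReal ((1 + ε) ^ (n - 1))) ∧
    (∀ ε : ℝ, 0 < ε → S ε 2 = ENNReal.ofReal (1 + ε)) := by
  have h1 : ∀ n : ℕ, 1 ≤ n → ∀ C : ℝ, 1 ≤ C → ∀ T : B n, PolynomiallyBounded C T →
      Sim T ≤ ENNReal.ofReal (C ^ (n - 1)) := by
    intro n hn C hC T hT
    obtain ⟨ξ, h2, h3⟩ := Pool.Agent.Helper69.SIM.exists_similar hC
      ((polynomiallyBounded_iff hC).1 hT) (m := n - 1) (by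
        rw [finrank_euclideanSpace_fin]; omega)
    exact iInf₂_le_of_le ξ h2 (ENNReal.ofReal_le_ofReal h3)
  have h2 : ∀ ε : ℝ, 0 < ε → ∀ n : ℕ, 2 ≤ n →
      ENNReal.ofReal (1 + ε) ≤ S ε n ∧ S ε n ≤ ENNReal.ofReal ((1 + ε) ^ (n - 1)) := by
    intro ε hε n hn
    have hC : (1 : ℝ) ≤ 1 + ε := by linarith
    constructor
    · obtain ⟨T, hT, hn⟩ := Pool.Agent.Helper69.SIM.exists_lower hn hC
      refine le_iSup₂_of_le T ((polynomiallyBounded_iff hC).2 hT) ?_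
      refine le_iInf₂ fun ξ hξ => ENNReal.ofReal_le_ofReal (hn.trans ?_)
      exact Pool.Agent.Helper69.SIM.norm_le_cond T ξ hξ
    · exact iSup₂_le fun T hT => h1 n (by omega) (1 + ε) hC T hT
  refine ⟨h1, h2, fun ε hε => ?_⟩
  have h3 := h2 ε hε 2 le_rfl
  refine le_antisymm ?_ h3.1
  simpa using h3.2

end Pool.Agent.Results.MP_a5cf26_an.SmallEpsUpper
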