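import Pool.Agent.Helper69.SIM.Growth
import Pool.Agent.Helper69.SQ.UpFinal
import Pool.Agent.Helper69.SQ.LowFinal

/-!
# Similarity constants of polynomially bounded matrices: the order for small `ε`

`S_ε(n) ≤ (1 + ε)^(37 √n)` and `S_ε(n) ≥ 1 + ε √(min (n, ε^(-1/2))) / 24` for all `ε > 0`.
In particular `S_ε(n) - 1` is of exact order `ε √n` for `ε ≤ n^(-2)`, and the
derivative `L(n)` of `S_ε(n)` at `ε = 0+` is of exact order `√n`.
-/

namespace Pool.Agent.Results.MP_a5cf26_an.SqrtOrder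

open Polynomial Filter Topology

/-- The Hilbert space `ℓ₂ⁿ`. -/
abbrev H (n : ℕ) := EuclideanSpace ℂ (Fin n)

/-- The bounded operators on `ℓ₂ⁿ`. -/
abbrev B (n : ℕ) := H n →L[ℂ] H n

/-- The operator `T` on `ℓ₂ⁿ` is polynomially `C`-bounded: `‖P(T)‖ ≤ C sup {|P(z)| : |z| ≤ 1}` for
every complex polynomial `P`. -/
def PolynomiallyBounded {n : ℕ} (C : ℝ) (T : B n) : Prop :=
  ∀ P : ℂ[X], ‖aeval T P‖ ≤ C * sSup ((fun z : ℂ => ‖P.eval z‖) '' {z : ℂ | ‖z‖ ≤ 1})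

/-- The invertible operators on `ℓ₂ⁿ`. -/
abbrev Inv (n : ℕ) := H n ≃L[ℂ] H n

/-- The operator `ξ⁻¹ T ξ`. -/
noncomputable def conj {n : ℕ} (ξ : Inv n) (T : B n) : B n := (ξ.symm : B n) ∘L T ∘L (ξ : B n)

/-- The number `‖ξ‖ ‖ξ⁻¹‖`. -/
noncomputable def cond {n : ℕ} (ξ : Inv n) : ℝ := ‖(ξ : B n)‖ * ‖(ξ.symm : B n)‖

/-- The similarity constant: the infimum of `‖ξ‖ ‖ξ⁻¹‖` over the invertible `ξ` for which
`ξ⁻¹ T ξ` is a contraction. -/
noncomputable def Sim {n : ℕ} (T : B n) : ENNReal :=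
  ⨅ ξ : Inv n, ⨅ _ : ‖conj ξ T‖ ≤ 1, ENNReal.ofReal (cond ξ)

/-- `S_ε(n)`: the supremum of the similarity constants of the polynomially `(1 + ε)`-bounded
operators on `ℓ₂ⁿ`. -/
noncomputable def S (ε : ℝ) (n : ℕ) : ENNReal :=
  ⨆ T : B n, ⨆ _ : PolynomiallyBounded (1 + ε) T, Sim T

theorem bddAbove_image (P : ℂ[X]) :
    BddAbove ((fun z : ℂ => ‖P.eval z‖) '' {z : ℂ | ‖z‖ ≤ 1}) := by
  have hc : IsCompact {z : ℂ | ‖z‖ ≤ 1} := by
    have : {z : ℂ | ‖z‖ ≤ 1} = Metric.closedBall 0 1 := by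
      ext z; simp
    rw [this]
    exact isCompact_closedBall 0 1
  exact (hc.image (by fun_prop)).bddAbove

theorem polynomiallyBounded_iff {n : ℕ} {C : ℝ} (hC : 1 ≤ C) {T : B n} :
    PolynomiallyBounded C T ↔ Pool.Agent.Helper69.SIM.PBdd C T := by
  constructor
  · intro h q s hq
    refine (h q).trans (mul_le_mul_of_nonneg_left ?_ (by linarith))
    refine csSup_le ⟨_, 0, by simp, rfl⟩ ?_
    rintro _ ⟨z, hz, rfl⟩
    exact hq z hz
  · intro h P
    exact h P _ fun z hz => le_csSup (bddAbove_image P) ⟨z, hz, rfl⟩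

theorem sim_le {n : ℕ} (hn : 1 ≤ n) {C : ℝ} (hC : 1 ≤ C) {T : B n}
    (hT : PolynomiallyBounded C T) : Sim T ≤ ENNReal.ofReal (C ^ (n - 1)) := by
  obtain ⟨ξ, h2, h3⟩ := Pool.Agent.Helper69.SIM.exists_similar hC
    ((polynomiallyBounded_iff hC).1 hT) (m := n - 1) (by
      rw [finrank_euclideanSpace_fin]; omega)
  exact iInf₂_le_of_le ξ h2 (ENNReal.ofReal_le_ofReal h3)

theorem one_le_cond {n : ℕ} (hn : 1 ≤ n) (ξ : Inv n) : 1 ≤ cond ξ := by
  have : Nonempty (Fin n) := ⟨⟨0, by omega⟩⟩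
  have : Nontrivial (H n) := inferInstance
  obtain ⟨x, hx⟩ := exists_norm_eq (H n) (zero_le_one (α := ℝ))
  have h1 := (ξ : B n).le_opNorm (ξ.symm x)
  have h2 := (ξ.symm : B n).le_opNorm x
  have h3 : (ξ : B n) (ξ.symm x) = x := ξ.apply_symm_apply x
  rw [h3, hx] at h1
  rw [hx, mul_one] at h2
  calc (1 : ℝ) ≤ ‖(ξ : B n)‖ * ‖ξ.symm x‖ := h1
    _ ≤ ‖(ξ : B n)‖ * ‖(ξ.symm : B n)‖ := mul_le_mul_of_nonneg_left h2 (norm_nonneg _)

theorem one_le_sim {n : ℕ} (hn : 1 ≤ n) (T : B n) : 1 ≤ Sim T := by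
  refine le_iInf₂ fun ξ _ => ?_
  rw [← ENNReal.ofReal_one]
  exact ENNReal.ofReal_le_ofReal (one_le_cond hn ξ)

theorem sim_rpow_le {n : ℕ} (hn : 1 ≤ n) {ε : ℝ} (hε : 0 < ε) {t : ℝ} (ht0 : 0 < t)
    (ht1 : t ≤ 1) {T : B n} (hT : PolynomiallyBounded (1 + ε) T) :
    (Sim T) ^ t ≤ S ((1 + ε) ^ t - 1) n := by
  have hC : (1 : ℝ) ≤ 1 + ε := by linarith
  have hCt : (1 : ℝ) ≤ (1 + ε) ^ t := Real.one_le_rpow hC ht0.le
  set σ := Sim T with hσ
  have hσtop : σ ≠ ⊤ := ne_top_of_le_ne_top ENNReal.ofReal_ne_top (sim_le hn hC hT)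
  have hσ1 : 1 ≤ σ := one_le_sim hn T
  have hσ0 : σ ≠ 0 := (zero_lt_one.trans_le hσ1).ne'
  set S' := S ((1 + ε) ^ t - 1) n with hS'
  have hu : 0 ≤ 1 - t := by linarith
  -- the approximate inequality
  have key : ∀ δ : ENNReal, 0 < δ → σ ≤ (σ + δ) ^ (1 - t) * S' := by
    intro δ hδ
    have h1 : (⨅ ξ : Inv n, ⨅ _ : ‖conj ξ T‖ ≤ 1, ENNReal.ofReal (cond ξ)) < σ + δ :=
      ENNReal.lt_add_right hσtop hδ.ne'
    obtain ⟨ξ, hξ⟩ := iInf_lt_iff.1 h1
    obtain ⟨hξ1, hξ2⟩ := iInf_lt_iff.1 hξ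
    obtain ⟨T', hT', hint⟩ := Pool.Agent.Helper69.SIM.interp hn hC
      ((polynomiallyBounded_iff hC).1 hT) ξ hξ1 ht0.le ht1
    have hT'' : PolynomiallyBounded (1 + ((1 + ε) ^ t - 1)) T' := by
      rw [add_sub_cancel]
      exact (polynomiallyBounded_iff hCt).2 hT'
    have h2 : σ ≤ (σ + δ) ^ (1 - t) * Sim T' := by
      have h3 : ∀ ζ' : Inv n, ‖conj ζ' T'‖ ≤ 1 →
          σ ≤ (σ + δ) ^ (1 - t) * ENNReal.ofReal (cond ζ') := by
        intro ζ' hζ'
        obtain ⟨ζ, hζ1, hζ2⟩ := hint ζ' hζ'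
        calc σ ≤ ENNReal.ofReal (cond ζ) := iInf₂_le_of_le ζ hζ1 le_rfl
          _ ≤ ENNReal.ofReal ((cond ξ) ^ (1 - t) * cond ζ') := ENNReal.ofReal_le_ofReal hζ2
          _ = ENNReal.ofReal (cond ξ) ^ (1 - t) * ENNReal.ofReal (cond ζ') := by
            have hc0 : 0 ≤ cond ξ := by unfold cond; positivity
            rw [ENNReal.ofReal_mul (Real.rpow_nonneg hc0 _), ENNReal.ofReal_rpow_of_nonneg hc0 hu]
          _ ≤ (σ + δ) ^ (1 - t) * ENNReal.ofReal (cond ζ') := by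
            gcongr
      have h4 : (σ + δ) ^ (1 - t) ≠ 0 := by
        have : σ + δ ≠ 0 := by
          intro h
          exact hσ0 (add_eq_zero.1 h).1
        intro h
        rcases ENNReal.rpow_eq_zero_iff.1 h with h | h
        · exact this h.1
        · linarith [h.2]
      by_cases hδt : (σ + δ) ^ (1 - t) = ⊤
      · rw [hδt]
        have h5 : Sim T' ≠ 0 := (zero_lt_one.trans_le (one_le_sim hn T')).ne'
        rw [ENNReal.top_mul h5]
        exact le_top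
      · rw [mul_comm]
        refine (ENNReal.div_le_iff h4 hδt).1 ?_
        refine le_iInf₂ fun ζ' hζ' => ?_
        rw [ENNReal.div_le_iff h4 hδt, mul_comm]
        exact h3 ζ' hζ'
    refine h2.trans ?_
    gcongr
    exact le_iSup₂_of_le T' hT'' le_rfl
  -- the limit
  by_cases hS0 : S' = ⊤
  · rw [hS0]; exact le_top
  have hlim : σ ≤ σ ^ (1 - t) * S' := by
    have hd : Tendsto (fun k : ℕ => (σ + ((k : ENNReal) + 1)⁻¹) ^ (1 - t) * S') atTop
        (𝓝 ((σ + 0) ^ (1 - t) * S')) := by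
      have h1 : Tendsto (fun k : ℕ => ((k : ENNReal) + 1)⁻¹) atTop (𝓝 0) := by
        have h2 := ENNReal.tendsto_inv_nat_nhds_zero.comp (tendsto_add_atTop_nat 1)
        refine h2.congr fun k => ?_
        simp
      have h3 : Tendsto (fun k : ℕ => σ + ((k : ENNReal) + 1)⁻¹) atTop (𝓝 (σ + 0)) :=
        tendsto_const_nhds.add h1
      exact ENNReal.Tendsto.mul_const (h3.ennrpow_const (1 - t)) (Or.inr hS0)
    have h2 := ge_of_tendsto' hd fun k => key _ (by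
      rw [ENNReal.inv_pos]
      exact ENNReal.add_ne_top.2 ⟨ENNReal.natCast_ne_top k, ENNReal.one_ne_top⟩)
    rwa [add_zero] at h2
  have h3 : σ ^ t = σ / σ ^ (1 - t) := by
    have h4 := ENNReal.rpow_sub (1 : ℝ) (1 - t) hσ0 hσtop
    rwa [sub_sub_cancel, ENNReal.rpow_one] at h4
  rw [h3]
  exact ENNReal.div_le_of_le_mul (by rwa [mul_comm])

theorem S_rpow_le {n : ℕ} (hn : 1 ≤ n) {ε : ℝ} (hε : 0 < ε) {t : ℝ} (ht0 : 0 < t)
    (ht1 : t ≤ 1) : (S ε n) ^ t ≤ S ((1 + ε) ^ t - 1) n := by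
  rw [← ENNReal.le_rpow_inv_iff ht0]
  refine iSup₂_le fun T hT => ?_
  rw [ENNReal.le_rpow_inv_iff ht0]
  exact sim_rpow_le hn hε ht0 ht1 hT

theorem S_le {n : ℕ} (hn : 1 ≤ n) {ε : ℝ} (hε : 0 < ε) :
    S ε n ≤ ENNReal.ofReal ((1 + ε) ^ (n - 1)) :=
  iSup₂_le fun _ hT => sim_le hn (by linarith) hT

theorem S_ne_top {n : ℕ} (hn : 1 ≤ n) {ε : ℝ} (hε : 0 < ε) : S ε n ≠ ⊤ :=
  ne_top_of_le_ne_top ENNReal.ofReal_ne_top (S_le hn hε)

theorem one_le_S {n : ℕ} (hn : 1 ≤ n) {ε : ℝ} (hε : 0 < ε) : 1 ≤ S ε n := by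
  have hC : (1 : ℝ) ≤ 1 + ε := by linarith
  have h1 : PolynomiallyBounded (1 + ε) (0 : B n) :=
    (polynomiallyBounded_iff hC).2
      ((Pool.Agent.Helper69.SIM.vn (0 : B n) (by rw [norm_zero]; exact zero_le_one)).mono hC)
  exact (one_le_sim hn _).trans (le_iSup₂_of_le 0 h1 le_rfl)

theorem one_add_le_S {n : ℕ} (hn : 2 ≤ n) {ε : ℝ} (hε : 0 < ε) :
    ENNReal.ofReal (1 + ε) ≤ S ε n := by
  have hC : (1 : ℝ) ≤ 1 + ε := by linarith
  obtain ⟨T, hT, hn⟩ := Pool.Agent.Helper69.SIM.exists_lower hn hC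
  refine le_iSup₂_of_le T ((polynomiallyBounded_iff hC).2 hT) ?_
  refine le_iInf₂ fun ξ hξ => ENNReal.ofReal_le_ofReal (hn.trans ?_)
  exact Pool.Agent.Helper69.SIM.norm_le_cond T ξ hξ

/-- the lower bound -/
theorem lower {n : ℕ} (hn : 2 ≤ n) {ε : ℝ} (hε : 0 < ε) :
    ENNReal.ofReal (1 + ε * √(min (n : ℝ) (1 / √ε)) / 24) ≤ S ε n := by
  have hse : 0 < √ε := Real.sqrt_pos.2 hε
  have hse2 : √ε ^ 2 = ε := Real.sq_sqrt hε.le
  by_cases hc : ε ≤ 1 / 3
  · -- the dimension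
    set x : ℝ := 1 / √(3 * ε) with hx
    have h3 : 0 < √(3 * ε) := Real.sqrt_pos.2 (by linarith)
    have h32 : √(3 * ε) ^ 2 = 3 * ε := Real.sq_sqrt (by linarith)
    have hx1 : 1 ≤ x := by
      rw [hx, le_div_iff₀ h3, one_mul]
      exact Real.sqrt_le_one.2 (by linarith)
    have hx0 : 0 ≤ x := by linarith
    set k : ℕ := min (n / 2) ⌊x⌋₊ with hk
    have hk1 : 1 ≤ k := by
      rw [hk, le_min_iff]
      exact ⟨by omega, (Nat.one_le_floor_iff x).2 hx1⟩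
    have hk2 : 2 * k ≤ n := by
      have : k ≤ n / 2 := min_le_left _ _
      omega
    have hkx : (k : ℝ) ≤ x := by
      have h4 : k ≤ ⌊x⌋₊ := min_le_right _ _
      exact (Nat.cast_le.2 h4).trans (Nat.floor_le hx0)
    have hk0 : (0 : ℝ) < k := by exact_mod_cast hk1
    have hε2 : ε ≤ 1 / (3 * (k : ℝ) ^ 2) := by
      rw [le_div_iff₀ (by positivity)]
      have h4 : (k : ℝ) * √(3 * ε) ≤ 1 := by
        rw [hx, le_div_iff₀ h3] at hkx
        exact hkx
      have h5 : ((k : ℝ) * √(3 * ε)) ^ 2 ≤ 1 := by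
        have : 0 ≤ (k : ℝ) * √(3 * ε) := by positivity
        nlinarith
      rw [mul_pow, h32] at h5
      linarith
    obtain ⟨T, hT1, hT2⟩ := Pool.Agent.Helper69.SQ.low_final k n hk1 hk2 ε hε hε2
    have h6 : ENNReal.ofReal (1 + ε * √k / 12) ≤ S ε n := by
      refine le_iSup₂_of_le T ((polynomiallyBounded_iff (by linarith)).2 hT1) ?_
      exact le_iInf₂ fun ξ hξ => ENNReal.ofReal_le_ofReal (hT2 ξ hξ)
    refine le_trans (ENNReal.ofReal_le_ofReal ?_) h6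
    -- comparison of the dimensions
    have h7 : min (n : ℝ) (1 / √ε) ≤ 4 * k := by
      rcases min_choice (n / 2) ⌊x⌋₊ with h8 | h8
      · refine (min_le_left _ _).trans ?_
        rw [← hk] at h8
        have : n ≤ 4 * k := by omega
        exact_mod_cast this
      · refine (min_le_right _ _).trans ?_
        rw [← hk] at h8
        have h9 : x ≤ 2 * k := by
          have h10 := Nat.lt_floor_add_one x
          have h11 : (1 : ℝ) ≤ k := by exact_mod_cast hk1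
          rw [← h8] at h10
          linarith
        have h10 : 1 / √ε ≤ 2 * x := by
          rw [hx, div_le_iff₀ hse, mul_one_div, div_mul_eq_mul_div, le_div_iff₀ h3, one_mul]
          refine abs_le_of_sq_le_sq' ?_ (by positivity) |>.2
          rw [h32, mul_pow, hse2]
          linarith
        linarith
    have h12 : √(min (n : ℝ) (1 / √ε)) ≤ 2 * √k := by
      refine (Real.sqrt_le_sqrt h7).trans (le_of_eq ?_)
      rw [Real.sqrt_mul (by norm_num), show (4 : ℝ) = 2 ^ 2 by norm_num,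
        Real.sqrt_sq (by norm_num)]
    have h13 : ε * √(min (n : ℝ) (1 / √ε)) ≤ ε * (2 * √k) :=
      mul_le_mul_of_nonneg_left h12 hε.le
    linarith
  · push Not at hc
    refine le_trans (ENNReal.ofReal_le_ofReal ?_) (one_add_le_S hn hε)
    have h1 : √(min (n : ℝ) (1 / √ε)) ≤ 24 := by
      rw [Real.sqrt_le_left (by norm_num)]
      refine (min_le_right _ _).trans ?_
      rw [div_le_iff₀ hse]
      have h2 : (1 / 24 : ℝ) ≤ √ε := by
        rw [Real.le_sqrt (by norm_num) hε.le]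
        linarith
      linarith
    have h2 : ε * √(min (n : ℝ) (1 / √ε)) ≤ ε * 24 := mul_le_mul_of_nonneg_left h1 hε.le
    linarith

/-- the upper bound for small `ε` -/
theorem upper {n : ℕ} (hn : 1 ≤ n) {ε : ℝ} (hε : 0 < ε) {η : ℝ}
    (hη : η = ε * (4 * (2 + ε) * √(21 * n) * ((1 + ε) ^ (n - 1)) ^ 2)) (hη1 : η < 1) :
    S ε n ≤ ENNReal.ofReal (1 + η / (1 - η)) := by
  refine iSup₂_le fun T hT => ?_
  have hC : (1 : ℝ) ≤ 1 + ε := by linarith
  have hη0 : 0 ≤ η := by rw [hη]; positivity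
  have hpos : 0 < 1 - η := by linarith
  obtain ⟨ξ, h1, h2⟩ := Pool.Agent.Helper69.SQ.up_final (m := n - 1) (E := H n) (by
    rw [finrank_euclideanSpace_fin]; omega) T hC ((polynomiallyBounded_iff hC).1 hT) η (by
    rw [hη, Nat.sub_add_cancel hn]; ring) hη1
  refine iInf₂_le_of_le ξ h1 (ENNReal.ofReal_le_ofReal (h2.trans ?_))
  have h3 : 1 + η / (1 - η) = 1 / (1 - η) := by
    field_simp
    ring
  rw [h3, Real.sqrt_le_left (by positivity), div_pow, one_pow, div_le_div_iff₀ hpos (by positivity)]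
  nlinarith [mul_nonneg hη0 (mul_nonneg hη0 hpos.le)]

/-- For `n ≥ 2`:
(1) `S_ε(n) ≤ (1 + ε)^(37 √n)` for all `ε > 0`;
(2) `S_ε(n) ≥ 1 + ε √(min (n, ε^(-1/2))) / 24` for all `ε > 0`;
(3) `(S_ε(n) - 1) / ε` has a limit `L(n)` for `ε → 0+`, and `√n / 24 ≤ L(n) ≤ 37 √n`. -/
theorem result (n : ℕ) (hn : 2 ≤ n) :
    (∀ ε : ℝ, 0 < ε → S ε n ≤ ENNReal.ofReal ((1 + ε) ^ (37 * √n))) ∧
    (∀ ε : ℝ, 0 < ε → ENNReal.ofReal (1 + ε * √(min (n : ℝ) (1 / √ε)) / 24) ≤ S ε n) ∧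
    ∃ L : ℝ, √n / 24 ≤ L ∧ L ≤ 37 * √n ∧
      Tendsto (fun ε : ℝ => ((S ε n).toReal - 1) / ε) (𝓝[>] 0) (𝓝 L) := by
  have hn1 : 1 ≤ n := by omega
  have hs1 : ∀ ε : ℝ, 0 < ε → 1 ≤ (S ε n).toReal := by
    intro ε hε
    have h3 := ENNReal.toReal_mono (S_ne_top hn1 hε) (one_le_S hn1 hε)
    simpa using h3
  obtain ⟨L, hL1, hL2, hL3⟩ := Pool.Agent.Helper69.SIM.exists_limit
    (fun ε => (S ε n).toReal) hs1
    (fun ε hε t ht0 ht1 => by
      have h3 : 0 < (1 + ε) ^ t - 1 := by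
        have := Real.one_lt_rpow (show 1 < 1 + ε by linarith) ht0
        linarith
      have h4 := ENNReal.toReal_mono (S_ne_top hn1 h3) (S_rpow_le hn1 hε ht0 ht1)
      rwa [← ENNReal.toReal_rpow] at h4)
    ((n : ℝ) - 1) (fun ε hε => by
      have h3 := ENNReal.toReal_mono ENNReal.ofReal_ne_top (S_le hn1 hε)
      rw [ENNReal.toReal_ofReal (by positivity)] at h3
      refine h3.trans (le_of_eq ?_)
      rw [← Real.rpow_natCast, Nat.cast_sub hn1, Nat.cast_one])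
  -- the upper bound for `L`
  have hLup : L ≤ 37 * √n := by
    set G : ℝ → ℝ := fun ε => 4 * (2 + ε) * √(21 * n) * ((1 + ε) ^ (n - 1)) ^ 2 with hG
    have hGc : Continuous G := by
      rw [hG]
      fun_prop
    have hlim : Tendsto (fun ε : ℝ => G ε / (1 - ε * G ε)) (𝓝[>] 0) (𝓝 (8 * √(21 * n))) := by
      have h1 : ContinuousAt (fun ε : ℝ => G ε / (1 - ε * G ε)) 0 := by
        refine ContinuousAt.div hGc.continuousAt (by fun_prop) ?_
        simp
      have h2 := h1.tendsto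
      have h3 : G 0 / (1 - 0 * G 0) = 8 * √(21 * n) := by
        rw [hG]
        simp only [add_zero, one_pow, zero_mul, sub_zero, div_one]
        ring
      rw [h3] at h2
      exact h2.mono_left nhdsWithin_le_nhds
    have hev : ∀ᶠ ε in 𝓝[>] (0 : ℝ), ε * G ε < 1 := by
      have h1 : Tendsto (fun ε : ℝ => ε * G ε) (𝓝 0) (𝓝 (0 * G 0)) :=
        (continuous_id.mul hGc).tendsto 0
      rw [zero_mul] at h1
      exact (h1.mono_left nhdsWithin_le_nhds).eventually_lt_const zero_lt_one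
    have h4 : L ≤ 8 * √(21 * n) := by
      refine le_of_tendsto_of_tendsto hL3 hlim ?_
      filter_upwards [self_mem_nhdsWithin, hev] with ε hε hε1
      have hε' : (0 : ℝ) < ε := hε
      have h5 := ENNReal.toReal_mono ENNReal.ofReal_ne_top (upper hn1 hε' rfl hε1)
      have h6 : 0 < 1 - ε * G ε := by linarith
      have h7 : 0 ≤ G ε := by
        simp only [hG]
        positivity
      rw [ENNReal.toReal_ofReal (by
        have : 0 ≤ ε * G ε / (1 - ε * G ε) := by positivity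
        linarith)] at h5
      rw [div_le_iff₀ hε']
      have h8 : ε * G ε / (1 - ε * G ε) = G ε / (1 - ε * G ε) * ε := by ring
      linarith
    have h9 : √(21 * n) = √21 * √n := Real.sqrt_mul (by norm_num) _
    have h10 : √21 ≤ 37 / 8 := by
      rw [Real.sqrt_le_left (by norm_num)]
      norm_num
    rw [h9] at h4
    have h11 : √21 * √n ≤ 37 / 8 * √n := mul_le_mul_of_nonneg_right h10 (Real.sqrt_nonneg _)
    linarith
  refine ⟨fun ε hε => ?_, fun ε hε => lower hn hε, L, ?_, hLup, hL3⟩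
  · rw [← ENNReal.ofReal_toReal (S_ne_top hn1 hε)]
    refine ENNReal.ofReal_le_ofReal ((hL2 ε hε).trans ?_)
    exact Real.rpow_le_rpow_of_exponent_le (by linarith) hLup
  · refine ge_of_tendsto hL3 ?_
    have hn0 : (0 : ℝ) < n := by exact_mod_cast (by omega : 0 < n)
    have hn2 : (1 : ℝ) ≤ n := by exact_mod_cast hn1
    have hpos : (0 : ℝ) < 1 / (n : ℝ) ^ 2 := by positivity
    filter_upwards [Ioc_mem_nhdsGT hpos] with ε hε
    obtain ⟨hε0, hε2⟩ := hε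
    have h3 := ENNReal.toReal_mono (S_ne_top hn1 hε0) (lower hn hε0)
    rw [ENNReal.toReal_ofReal (by positivity)] at h3
    have h4 : min (n : ℝ) (1 / √ε) = n := by
      refine min_eq_left ?_
      have hse : 0 < √ε := Real.sqrt_pos.2 hε0
      rw [le_div_iff₀ hse]
      have h5 : √ε ≤ 1 / n := by
        rw [Real.sqrt_le_left (by positivity), div_pow, one_pow]
        exact hε2
      calc (n : ℝ) * √ε ≤ n * (1 / n) := by gcongr
        _ = 1 := by field_simp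
    rw [h4] at h3
    rw [le_div_iff₀ hε0]
    linarith

end Pool.Agent.Results.MP_a5cf26_an.SqrtOrder
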